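import Mathlib
import Pool.Agent.J4.H80.Gen

/-!
# Transcripts which only see equalities between arbitrary functions: the counting argument

As in `Pool.Agent.J4.H80.Gen`, but for functions with the property that on each line two of them are
equal at few points or different at few points.
-/

set_option autoImplicit false
set_option linter.unusedSectionVars false

open Finset

namespace Pool.Agent.J4.H34.PH

open Pool.Agent.J4.H80.Gen Pool.Agent.J4.H80.Cover

/-! ### Dichotomies -/

open Classical in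
/-- the property is rare or its negation is rare -/
def Dich (E : ℕ → Prop) (R Δ : ℕ) : Prop :=
  ((range R).filter fun z => E z).card ≤ Δ ∨ ((range R).filter fun z => ¬ E z).card ≤ Δ

open Classical in
/-- the exceptional numbers -/
def Exc (E : ℕ → Prop) (R Δ z : ℕ) : Prop :=
  (E z ∧ ((range R).filter fun z => E z).card ≤ Δ) ∨
    (¬ E z ∧ ((range R).filter fun z => ¬ E z).card ≤ Δ)

lemma exc_of_ne {E : ℕ → Prop} {R Δ z z' : ℕ} (hD : Dich E R Δ) (hne : ¬ (E z ↔ E z')) :
    Exc E R Δ z ∨ Exc E R Δ z' := by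
  unfold Exc
  rcases hD with h | h
  · by_cases h1 : E z
    · exact Or.inl (Or.inl ⟨h1, h⟩)
    · by_cases h2 : E z'
      · exact Or.inr (Or.inl ⟨h2, h⟩)
      · exact absurd ⟨fun h => absurd h h1, fun h => absurd h h2⟩ hne
  · by_cases h1 : E z
    · by_cases h2 : E z'
      · exact absurd ⟨fun _ => h2, fun _ => h1⟩ hne
      · exact Or.inr (Or.inr ⟨h2, h⟩)
    · exact Or.inl (Or.inr ⟨h1, h⟩)

lemma Exc.congr {E : ℕ → Prop} {R Δ z z' : ℕ} (h : Exc E R Δ z) (he : E z ↔ E z') :
    Exc E R Δ z' := by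
  rcases h with h | h
  · exact Or.inl ⟨he.1 h.1, h.2⟩
  · exact Or.inr ⟨fun h' => h.1 (he.2 h'), h.2⟩

open Classical in
lemma card_exc_le (E : ℕ → Prop) (R Δ : ℕ) :
    ((range R).filter fun z => Exc E R Δ z).card ≤ 2 * Δ := by
  have h1 : ((range R).filter fun z => Exc E R Δ z) ⊆
      (if ((range R).filter fun z => E z).card ≤ Δ then (range R).filter fun z => E z else ∅) ∪
      (if ((range R).filter fun z => ¬ E z).card ≤ Δ then (range R).filter fun z => ¬ E z
        else ∅) := by
    intro z hz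
    obtain ⟨h3, h4⟩ := mem_filter.1 hz
    rw [mem_union]
    rcases h4 with h4 | h4
    · left
      rw [if_pos h4.2]
      exact mem_filter.2 ⟨h3, h4.1⟩
    · right
      rw [if_pos h4.2]
      exact mem_filter.2 ⟨h3, h4.1⟩
  refine (card_le_card h1).trans ((card_union_le _ _).trans ?_)
  have h2 : (if ((range R).filter fun z => E z).card ≤ Δ then (range R).filter fun z => E z
      else ∅).card ≤ Δ := by
    split_ifs with h
    · exact h
    · simp
  have h3 : (if ((range R).filter fun z => ¬ E z).card ≤ Δ then (range R).filter fun z => ¬ E z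
      else ∅).card ≤ Δ := by
    split_ifs with h
    · exact h
    · simp
  omega

/-- restriction to a shifted smaller interval -/
lemma Exc.shift {E E' : ℕ → Prop} {R R' Δ c z : ℕ} (h : Exc E R Δ (z + c))
    (hE : ∀ z, E' z ↔ E (z + c)) (hR : R' + c ≤ R) : Exc E' R' Δ z := by
  have hle : ∀ (P Q : ℕ → Prop) [DecidablePred P] [DecidablePred Q], (∀ z, P z ↔ Q (z + c)) →
      ((range R').filter fun z => P z).card ≤ ((range R).filter fun z => Q z).card := by
    clear h
    intro P Q _ _ hPQ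
    apply card_le_card_of_injOn (fun z => z + c)
    · intro z hz
      simp only [coe_filter, mem_range, Set.mem_ofPred_eq] at hz ⊢
      exact ⟨by omega, (hPQ z).1 hz.2⟩
    · intro a _ b _ hab
      exact Nat.add_right_cancel hab
  classical
  rcases h with h | h
  · exact Or.inl ⟨(hE z).2 h.1, (hle _ _ hE).trans h.2⟩
  · exact Or.inr ⟨fun h' => h.1 ((hE z).1 h'), (hle (fun z => ¬ E' z) (fun z => ¬ E z)
      fun z => not_congr (hE z)).trans h.2⟩

/-! ### Algorithms -/

variable {m : ℕ} {Φ V : Type*}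

/-- points -/
abbrev Pt (m : ℕ) : Type := Fin 3 × Fin m → ℕ

/-- the ranges of the free numbers -/
def rg (m q : ℕ) (b : Fin 3 × Fin m) : ℕ := if b.1 = 2 then 2 * q else q

lemma rg_ge (q : ℕ) (b : Fin 3 × Fin m) : q ≤ rg m q b := by
  unfold rg
  split_ifs <;> omega

/-- the data of an algorithm which sees only the equalities among the computed functions -/
structure PAlg (m : ℕ) (Φ V : Type*) (q Δ κ : ℕ) where
  /-- the value of a function -/
  val : Φ → Pt m → V
  /-- the variables of a function -/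
  X : Φ → Finset (Fin 3 × Fin m)
  /-- the admissible functions -/
  C : Φ → Prop
  /-- the computed functions -/
  F : Pt m → Finset Φ
  /-- the answer -/
  ans : Pt m → Bool
  /-- the computed functions are admissible -/
  hC : ∀ s, ∀ u ∈ F s, C u
  /-- the value depends only on the variables -/
  dep : ∀ u s t, (∀ b ∈ X u, s b = t b) → val u s = val u t
  /-- few variables -/
  few : ∀ u, C u → (X u).card ≤ κ
  /-- two inputs are treated in the same way or they are distinguished by an equality -/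
  sep : ∀ s t, (F s = F t ∧ ans s = ans t) ∨ ∃ u ∈ F s, ∃ v ∈ F s, u ∈ F t ∧ v ∈ F t ∧
    ¬ (val u s = val v s ↔ val u t = val v t)
  /-- dichotomy on lines which are parallel to an axis -/
  line : ∀ u v, C u → C v → ∀ s b, Dich (fun z => val u (Function.update s b z) =
    val v (Function.update s b z)) (rg m q b) Δ
  /-- dichotomy on planted lines -/
  diag : ∀ u v, C u → C v → ∀ s (l : Lab m) r, r ≠ 2 →
    Dich (fun z => val u (plant (Function.update s (r, l r) z) l) =
      val v (plant (Function.update s (r, l r) z) l)) q Δ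

variable {q Δ κ : ℕ} {P : PAlg m Φ V q Δ κ}

/-- the equality pattern on a line -/
def Eb (P : PAlg m Φ V q Δ κ) (s : Pt m) (b : Fin 3 × Fin m) (p : Φ × Φ) (z : ℕ) : Prop :=
  P.val p.1 (Function.update s b z) = P.val p.2 (Function.update s b z)

/-- the equality pattern on a planted line -/
def Ed (P : PAlg m Φ V q Δ κ) (s : Pt m) (l : Lab m) (r : Fin 3) (p : Φ × Φ) (z : ℕ) : Prop :=
  P.val p.1 (plant (Function.update s (r, l r) z) l) =
    P.val p.2 (plant (Function.update s (r, l r) z) l)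

/-- the two inputs are treated in the same way -/
def Same (P : PAlg m Φ V q Δ κ) (s t : Pt m) : Prop :=
  P.F s = P.F t ∧ P.ans s = P.ans t ∧
    ∀ u ∈ P.F s, ∀ v ∈ P.F s, (P.val u s = P.val v s ↔ P.val u t = P.val v t)

lemma sep {s t : Pt m} (h : ¬ Same P s t) : ∃ u ∈ P.F s, ∃ v ∈ P.F s, u ∈ P.F t ∧ v ∈ P.F t ∧
    ¬ (P.val u s = P.val v s ↔ P.val u t = P.val v t) := by
  rcases P.sep s t with h1 | h1
  · by_contra hcon
    apply h
    refine ⟨h1.1, h1.2, fun u hu v hv => ?_⟩
    by_contra hne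
    exact hcon ⟨u, hu, v, hv, h1.1 ▸ hu, h1.1 ▸ hv, hne⟩
  · exact h1

open Classical in
/-- the pairs of functions which depend on `b` -/
noncomputable def D (P : PAlg m Φ V q Δ κ) (b : Fin 3 × Fin m) (s : Pt m) : Finset (Φ × Φ) :=
  (P.F s ×ˢ P.F s).filter fun p => b ∈ P.X p.1 ∪ P.X p.2

/-- few pairs depend on `b`, and they behave generically -/
def Good (P : PAlg m Φ V q Δ κ) (ℓ : ℕ) (b : Fin 3 × Fin m) (s : Pt m) : Prop :=
  (D P b s).card ≤ ℓ ∧ ∀ p ∈ D P b s, ¬ Exc (Eb P s b p) (rg m q b) Δ (s b)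

lemma mem_D {b : Fin 3 × Fin m} {s : Pt m} {p : Φ × Φ} :
    p ∈ D P b s ↔ (p.1 ∈ P.F s ∧ p.2 ∈ P.F s) ∧ (b ∈ P.X p.1 ∨ b ∈ P.X p.2) := by
  classical
  simp [D]

lemma Same.D_eq {s t : Pt m} (h : Same P s t) (b : Fin 3 × Fin m) : D P b s = D P b t := by
  unfold D
  rw [h.1]

lemma update_update (s : Pt m) (b : Fin 3 × Fin m) (z z' : ℕ) :
    Function.update (Function.update s b z) b z' = Function.update s b z' := by
  simp

lemma Eb_update (s : Pt m) (b : Fin 3 × Fin m) (p : Φ × Φ) (z : ℕ) :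
    Eb P (Function.update s b z) b p = Eb P s b p := by
  funext z'
  unfold Eb
  rw [update_update]

/-- a pair which distinguishes two inputs on a line depends on the coordinate -/
lemma mem_D_of_sep {u v : Φ} {b : Fin 3 × Fin m} {s : Pt m} {z z' : ℕ}
    (h : ¬ (Eb P s b (u, v) z ↔ Eb P s b (u, v) z')) : b ∈ P.X u ∨ b ∈ P.X v := by
  by_contra hcon
  push Not at hcon
  apply h
  have e : ∀ w : Φ, b ∉ P.X w → P.val w (Function.update s b z) =
      P.val w (Function.update s b z') := by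
    intro w hw
    apply P.dep
    intro b' hb'
    have : b' ≠ b := fun h => hw (h ▸ hb')
    rw [Function.update_of_ne this, Function.update_of_ne this]
  unfold Eb
  rw [e u hcon.1, e v hcon.2]

open Classical in
/-- few points on a line are treated differently than a good point -/
lemma card_not_same_le {ℓ : ℕ} {b : Fin 3 × Fin m} {s : Pt m} (hg : Good P ℓ b s)
    (S : Finset ℕ) (hSR : ∀ z ∈ S, z < rg m q b)
    (hS : ∀ z ∈ S, ¬ Same P s (Function.update s b z)) : S.card ≤ 2 * Δ * ℓ := by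
  have h1 : S ⊆ (D P b s).biUnion fun p =>
      (range (rg m q b)).filter fun z => Exc (Eb P s b p) (rg m q b) Δ z := by
    intro z hz
    obtain ⟨u, hu, v, hv, -, -, hne⟩ := sep (hS z hz)
    have hs : s = Function.update s b (s b) := by simp
    have hne' : ¬ (Eb P s b (u, v) (s b) ↔ Eb P s b (u, v) z) := by
      unfold Eb
      rw [← hs]
      exact hne
    have hD : (u, v) ∈ D P b s := mem_D.2 ⟨⟨hu, hv⟩, mem_D_of_sep hne'⟩
    have h2 := exc_of_ne (P.line u v (P.hC s u hu) (P.hC s v hv) s b) hne'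
    rw [mem_biUnion]
    refine ⟨(u, v), hD, mem_filter.2 ⟨mem_range.2 (hSR z hz), ?_⟩⟩
    rcases h2 with h2 | h2
    · exact absurd h2 (hg.2 _ hD)
    · exact h2
  calc S.card ≤ ∑ p ∈ D P b s,
        ((range (rg m q b)).filter fun z => Exc (Eb P s b p) (rg m q b) Δ z).card :=
        (card_le_card h1).trans card_biUnion_le
    _ ≤ ∑ p ∈ D P b s, 2 * Δ := sum_le_sum fun p _ => card_exc_le _ _ _
    _ = (D P b s).card * (2 * Δ) := by rw [sum_const, smul_eq_mul]
    _ ≤ ℓ * (2 * Δ) := Nat.mul_le_mul_right _ hg.1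
    _ = 2 * Δ * ℓ := by ring

/-- on each line there are few points with small load and an exceptional pair -/
lemma card_eq_le {ℓ : ℕ} {b : Fin 3 × Fin m} {s : Pt m} (S : Finset ℕ)
    (hSR : ∀ z ∈ S, z < rg m q b)
    (hS : ∀ z ∈ S, (D P b (Function.update s b z)).card ≤ ℓ ∧
      ∃ p ∈ D P b (Function.update s b z), Exc (Eb P s b p) (rg m q b) Δ z) :
    S.card ≤ 4 * Δ * ℓ + 1 := by
  classical
  set x : ℕ → Pt m := fun z => Function.update s b z with hx
  set Out : ℕ → Finset ℕ := fun z => S.filter fun z' => ∃ p ∈ D P b (x z),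
    Exc (Eb P s b p) (rg m q b) Δ z' with hOut
  have h1 : ∀ z ∈ S, (Out z).card ≤ 2 * Δ * ℓ := by
    intro z hz
    have h2 : Out z ⊆ (D P b (x z)).biUnion fun p =>
        (range (rg m q b)).filter fun z => Exc (Eb P s b p) (rg m q b) Δ z := by
      intro z' hz'
      obtain ⟨h3, p, hp, h4⟩ := mem_filter.1 hz'
      rw [mem_biUnion]
      exact ⟨p, hp, mem_filter.2 ⟨mem_range.2 (hSR z' h3), h4⟩⟩
    calc (Out z).card ≤ ∑ p ∈ D P b (x z),
          ((range (rg m q b)).filter fun z => Exc (Eb P s b p) (rg m q b) Δ z).card :=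
          (card_le_card h2).trans card_biUnion_le
      _ ≤ ∑ p ∈ D P b (x z), 2 * Δ := sum_le_sum fun p _ => card_exc_le _ _ _
      _ = (D P b (x z)).card * (2 * Δ) := by rw [sum_const, smul_eq_mul]
      _ ≤ ℓ * (2 * Δ) := Nat.mul_le_mul_right _ (hS z hz).1
      _ = 2 * Δ * ℓ := by ring
  have h2 : ∀ z ∈ S, ∀ z' ∈ S, z ≠ z' → z' ∈ Out z ∨ z ∈ Out z' := by
    intro z hz z' hz' hne
    by_cases h3 : Same P (x z) (x z')
    · left
      obtain ⟨p, hp, hpe⟩ := (hS z hz).2
      have h5 := mem_D.1 hp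
      have h6 := h3.2.2 p.1 h5.1.1 p.2 h5.1.2
      exact mem_filter.2 ⟨hz', p, hp, hpe.congr h6⟩
    · obtain ⟨u, hu, v, hv, hu', hv', hsep⟩ := sep h3
      have hsep' : ¬ (Eb P s b (u, v) z ↔ Eb P s b (u, v) z') := hsep
      have hD := mem_D_of_sep hsep'
      rcases exc_of_ne (P.line u v (P.hC _ u hu) (P.hC _ v hv) s b) hsep' with h4 | h4
      · right
        exact mem_filter.2 ⟨hz, (u, v), mem_D.2 ⟨⟨hu', hv'⟩, hD⟩, h4⟩
      · left
        exact mem_filter.2 ⟨hz', (u, v), mem_D.2 ⟨⟨hu, hv⟩, hD⟩, h4⟩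
  have h3 : S.offDiag.card ≤ (S.sigma Out).card + (S.sigma Out).card := by
    have h4 : S.offDiag ⊆ ((S.sigma Out).image fun p => (p.1, p.2)) ∪
        ((S.sigma Out).image fun p => (p.2, p.1)) := by
      rintro ⟨z, z'⟩ hzz
      rw [mem_offDiag] at hzz
      rw [mem_union, mem_image, mem_image]
      rcases h2 z hzz.1 z' hzz.2.1 hzz.2.2 with h5 | h5
      · exact Or.inl ⟨⟨z, z'⟩, mem_sigma.2 ⟨hzz.1, h5⟩, rfl⟩
      · exact Or.inr ⟨⟨z', z⟩, mem_sigma.2 ⟨hzz.2.1, h5⟩, rfl⟩
    refine (card_le_card h4).trans ((card_union_le _ _).trans ?_)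
    exact add_le_add card_image_le card_image_le
  rw [offDiag_card, card_sigma] at h3
  have h4 : ∑ z ∈ S, (Out z).card ≤ S.card * (2 * Δ * ℓ) := by
    calc ∑ z ∈ S, (Out z).card ≤ ∑ z ∈ S, 2 * Δ * ℓ := sum_le_sum h1
      _ = S.card * (2 * Δ * ℓ) := by rw [sum_const, smul_eq_mul]
  rcases Nat.eq_zero_or_pos S.card with h5 | h5
  · omega
  · have h6 : S.card * S.card ≤ S.card * (4 * Δ * ℓ + 1) := by
      have : S.card * (4 * Δ * ℓ + 1) = S.card * (2 * Δ * ℓ) + S.card * (2 * Δ * ℓ) + S.card := by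
        ring
      omega
    exact Nat.le_of_mul_le_mul_left h6 h5

lemma card_eqbad_le (ℓ : ℕ) (b : Fin 3 × Fin m) (A : Finset (Pt m)) (hA : A ⊆ box (rg m q))
    (h : ∀ s ∈ A, (D P b s).card ≤ ℓ ∧ ∃ p ∈ D P b s, Exc (Eb P s b p) (rg m q b) Δ (s b)) :
    rg m q b * A.card ≤ (4 * Δ * ℓ + 1) * (box (rg m q)).card := by
  classical
  apply fiber_le b _ A hA
  intro s _
  apply card_eq_le (P := P) (b := b) (s := s)
  · intro z hz
    exact mem_range.1 (mem_filter.1 hz).1
  · intro z hz
    obtain ⟨h1, p, hp, he⟩ := h _ (mem_filter.1 hz).2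
    refine ⟨h1, p, hp, ?_⟩
    rw [Eb_update] at he
    simpa using he

open Classical in
/-- few coordinates have a big load -/
lemma sum_D_le (s : Pt m) : ∑ b, (D P b s).card ≤ 2 * κ * (P.F s).card ^ 2 := by
  have h1 : ∑ b, (D P b s).card =
      ∑ p ∈ P.F s ×ˢ P.F s, (univ.filter fun b => b ∈ P.X p.1 ∪ P.X p.2).card := by
    unfold D
    simp_rw [card_filter]
    rw [sum_comm]
  rw [h1]
  have h2 : ∀ p ∈ P.F s ×ˢ P.F s, (univ.filter fun b => b ∈ P.X p.1 ∪ P.X p.2).card ≤ 2 * κ := by
    intro p hp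
    have h3 : (univ.filter fun b => b ∈ P.X p.1 ∪ P.X p.2) = P.X p.1 ∪ P.X p.2 := by
      ext b
      simp
    rw [h3]
    refine (card_union_le _ _).trans ?_
    have := P.few p.1 (P.hC s _ (mem_product.1 hp).1)
    have := P.few p.2 (P.hC s _ (mem_product.1 hp).2)
    omega
  calc _ ≤ ∑ p ∈ P.F s ×ˢ P.F s, 2 * κ := sum_le_sum h2
    _ = 2 * κ * (P.F s).card ^ 2 := by
      rw [sum_const, card_product, smul_eq_mul]; ring

/-! ### Labels -/

/-- all three coordinates of the label occur in the pair -/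
def Covd (P : PAlg m Φ V q Δ κ) (s : Pt m) (l : Lab m) : Prop :=
  ∃ u ∈ P.F s, ∃ v ∈ P.F s, ∀ r, (r, l r) ∈ P.X u ∨ (r, l r) ∈ P.X v

/-- the pair which sees the planted solution -/
lemma exists_pair {ℓ : ℕ} {s : Pt m} {l : Lab m} (hg : Good P ℓ (2, l 2) s)
    (h : ¬ Same P s (plant s l)) : ∃ p ∈ D P (2, l 2) s,
      Exc (Eb P s (2, l 2) p) (rg m q (2, l 2)) Δ (s (0, l 0) + s (1, l 1)) := by
  obtain ⟨u, hu, v, hv, -, -, hne⟩ := sep h
  have hs : s = Function.update s (2, l 2) (s (2, l 2)) := by simp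
  have hne' : ¬ (Eb P s (2, l 2) (u, v) (s (2, l 2)) ↔
      Eb P s (2, l 2) (u, v) (s (0, l 0) + s (1, l 1))) := by
    unfold Eb
    rw [← hs]
    exact hne
  have hD : (u, v) ∈ D P (2, l 2) s := mem_D.2 ⟨⟨hu, hv⟩, mem_D_of_sep hne'⟩
  refine ⟨(u, v), hD, ?_⟩
  rcases exc_of_ne (P.line u v (P.hC s u hu) (P.hC s v hv) s (2, l 2)) hne' with h2 | h2
  · exact absurd h2 (hg.2 _ hD)
  · exact h2

/-- a pair which does not depend on one of the coordinates sees the solution on the planted line -/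
lemma exc_diag {s : Pt m} (hs : s ∈ box (rg m q)) {l : Lab m} {p : Φ × Φ} {r : Fin 3} (hr : r ≠ 2)
    (h : Exc (Eb P s (2, l 2) p) (rg m q (2, l 2)) Δ (s (0, l 0) + s (1, l 1)))
    (hX : ¬ ((r, l r) ∈ P.X p.1 ∨ (r, l r) ∈ P.X p.2)) :
    Exc (Ed P s l r p) q Δ (s (r, l r)) := by
  push Not at hX
  have h0 := mem_box.1 hs (0, l 0)
  have h1 := mem_box.1 hs (1, l 1)
  have e0 : rg m q (0, l 0) = q := by simp [rg]
  have e1 : rg m q (1, l 1) = q := by simp [rg]
  have e2 : rg m q (2, l 2) = 2 * q := by simp [rg]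
  rw [e0] at h0
  rw [e1] at h1
  rw [e2] at h
  have hr01 : r = 0 ∨ r = 1 := by
    fin_cases r
    · left; rfl
    · right; rfl
    · exact absurd rfl hr
  have key : ∀ (w : Φ) (hw : (r, l r) ∉ P.X w) (s1 s2 : Pt m),
      (∀ b, b ≠ (r, l r) → s1 b = s2 b) → P.val w s1 = P.val w s2 := by
    intro w hw s1 s2 h12
    apply P.dep
    intro b hb
    exact h12 b fun h => hw (h ▸ hb)
  rcases hr01 with rfl | rfl
  · apply Exc.shift (c := s (1, l 1)) (R := 2 * q) (E := Eb P s (2, l 2) p) h
    · intro z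
      unfold Ed Eb
      have e : ∀ w : Φ, ((0 : Fin 3), l 0) ∉ P.X w →
          P.val w (plant (Function.update s (0, l 0) z) l) =
          P.val w (Function.update s (2, l 2) (z + s (1, l 1))) := by
        intro w hw
        apply key w hw
        intro b hb
        unfold plant
        by_cases hb2 : b = (2, l 2)
        · rw [hb2]
          simp
        · rw [Function.update_of_ne hb2, Function.update_of_ne hb2, Function.update_of_ne hb]
      rw [e _ hX.1, e _ hX.2]
    · omega
  · rw [add_comm] at h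
    apply Exc.shift (c := s (0, l 0)) (R := 2 * q) (E := Eb P s (2, l 2) p) h
    · intro z
      unfold Ed Eb
      have e : ∀ w : Φ, ((1 : Fin 3), l 1) ∉ P.X w →
          P.val w (plant (Function.update s (1, l 1) z) l) =
          P.val w (Function.update s (2, l 2) (z + s (0, l 0))) := by
        intro w hw
        apply key w hw
        intro b hb
        unfold plant
        by_cases hb2 : b = (2, l 2)
        · rw [hb2]
          simp [add_comm]
        · rw [Function.update_of_ne hb2, Function.update_of_ne hb2, Function.update_of_ne hb]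
      rw [e _ hX.1, e _ hX.2]
    · omega

open Classical in
/-- the inputs at which a pair sees the planted solution on a planted line -/
noncomputable def Sb (P : PAlg m Φ V q Δ κ) (ℓ : ℕ) (l : Lab m) (r : Fin 3) : Finset (Pt m) :=
  (box (rg m q)).filter fun s => (D P (2, l 2) s).card ≤ ℓ ∧ Good P ℓ (r, l r) s ∧
    ∃ p ∈ D P (2, l 2) s, Exc (Ed P s l r p) q Δ (s (r, l r))

lemma Ed_update (s : Pt m) (l : Lab m) (r : Fin 3) (p : Φ × Φ) (z : ℕ) :
    Ed P (Function.update s (r, l r) z) l r p = Ed P s l r p := by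
  funext z'
  unfold Ed
  rw [update_update]

lemma card_Sb_le (ℓ : ℕ) (l : Lab m) {r : Fin 3} (hr : r ≠ 2) :
    (q - 2 * Δ * ℓ) * (Sb P ℓ l r).card ≤ 2 * Δ * ℓ * (box (rg m q)).card := by
  classical
  set S := Sb P ℓ l r with hSdef
  have hrg : rg m q (r, l r) = q := by simp [rg, hr]
  have h1 : ∀ s ∈ S, ∃ p : Φ × Φ, p ∈ D P (2, l 2) s ∧ Exc (Ed P s l r p) q Δ (s (r, l r)) := by
    intro s hs
    rw [hSdef, Sb, mem_filter] at hs
    obtain ⟨_, _, _, p, hp, he⟩ := hs
    exact ⟨p, hp, he⟩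
  rcases S.eq_empty_or_nonempty with hS | ⟨s0, hs0⟩
  · rw [hS]; simp
  have : Nonempty (Φ × Φ) := ⟨(h1 s0 hs0).choose⟩
  choose! f hf hfe using h1
  have hSb : ∀ s ∈ S, s ∈ box (rg m q) ∧ (D P (2, l 2) s).card ≤ ℓ ∧ Good P ℓ (r, l r) s := by
    intro s hs
    rw [hSdef, Sb, mem_filter] at hs
    exact ⟨hs.1, hs.2.1, hs.2.2.1⟩
  set A : Finset (Σ _ : Pt m, ℕ) :=
    S.sigma fun s => (range q).filter fun z => Same P s (Function.update s (r, l r) z) with hA
  set C : Finset (Σ _ : Pt m, Φ × Φ) :=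
    ((box (rg m q)).filter fun s => (D P (2, l 2) s).card ≤ ℓ).sigma fun s => D P (2, l 2) s with hC
  set G : (Σ _ : Pt m, ℕ) → (Σ _ : Pt m, Φ × Φ) := fun x =>
    ⟨Function.update x.1 (r, l r) x.2, f x.1⟩ with hG
  have hmaps : ∀ x ∈ A, G x ∈ C := by
    rintro ⟨s, z⟩ hx
    rw [hA, mem_sigma, mem_filter, mem_range] at hx
    obtain ⟨hs, hz, hsame⟩ := hx
    simp only at hs hz hsame
    rw [hC, mem_sigma, mem_filter]
    refine ⟨⟨update_mem_box (hSb s hs).1 (by rw [hrg]; exact hz), ?_⟩, ?_⟩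
    · simp only [hG]
      rw [← hsame.D_eq]
      exact (hSb s hs).2.1
    · simp only [hG]
      rw [← hsame.D_eq]
      exact hf s hs
  have hfib : ∀ y ∈ C, (A.filter fun x => G x = y).card ≤ 2 * Δ := by
    rintro ⟨t, p⟩ _
    refine le_trans (b := ((range q).filter fun z => Exc (Ed P t l r p) q Δ z).card) ?_
      (card_exc_le _ _ _)
    apply card_le_card_of_injOn (fun x => x.1 (r, l r))
    · rintro ⟨s, z⟩ hx
      simp only [coe_filter, Set.mem_ofPred_eq] at hx
      obtain ⟨hx1, hx2⟩ := hx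
      rw [hA, mem_sigma, mem_filter, mem_range] at hx1
      obtain ⟨hs, hz, hsame⟩ := hx1
      simp only at hs hz hsame
      simp only [hG, Sigma.mk.injEq] at hx2
      obtain ⟨e1, e2⟩ := hx2
      have e2' : f s = p := eq_of_heq e2
      simp only [coe_filter, mem_range, Set.mem_ofPred_eq]
      constructor
      · have := mem_box.1 (hSb s hs).1 (r, l r)
        rwa [hrg] at this
      · rw [← e1, ← e2', Ed_update]
        exact hfe s hs
    · rintro ⟨s, z⟩ hx ⟨s', z'⟩ hx' heq
      simp only [coe_filter, Set.mem_ofPred_eq] at hx hx'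
      obtain ⟨_, hx2⟩ := hx
      obtain ⟨_, hx2'⟩ := hx'
      simp only [hG, Sigma.mk.injEq] at hx2 hx2'
      simp only at heq
      have e1 := hx2.1
      have e1' := hx2'.1
      have hzz : z = z' := by
        have h3 := congrFun e1 (r, l r)
        have h4 := congrFun e1' (r, l r)
        simp only [Function.update_self] at h3 h4
        rw [h3, h4]
      have hss : s = s' := by
        funext b
        by_cases hb : b = (r, l r)
        · rw [hb]; exact heq
        · have h3 := congrFun e1 b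
          have h4 := congrFun e1' b
          rw [Function.update_of_ne hb] at h3 h4
          rw [h3, h4]
      rw [hss, hzz]
  have h2 : A.card ≤ C.card * (2 * Δ) := by
    have := card_le_mul_card_image_of_maps_to (f := G) (s := A) (t := C) hmaps (2 * Δ) hfib
    rw [mul_comm]
    exact this
  have h3 : C.card ≤ ℓ * (box (rg m q)).card := by
    rw [hC, card_sigma]
    calc _ ≤ ∑ s ∈ (box (rg m q)).filter (fun s => (D P (2, l 2) s).card ≤ ℓ), ℓ :=
          sum_le_sum fun s hs => (mem_filter.1 hs).2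
      _ ≤ ∑ s ∈ box (rg m q), ℓ := sum_le_sum_of_subset (filter_subset _ _)
      _ = ℓ * (box (rg m q)).card := by rw [sum_const, smul_eq_mul, mul_comm]
  have h4 : (q - 2 * Δ * ℓ) * S.card ≤ A.card := by
    rw [hA, card_sigma]
    have h5 : ∀ s ∈ S, q - 2 * Δ * ℓ ≤ ((range q).filter fun z =>
        Same P s (Function.update s (r, l r) z)).card := by
      intro s hs
      have h6 := card_not_same_le (hSb s hs).2.2 ((range q).filter fun z =>
        ¬ Same P s (Function.update s (r, l r) z)) (fun z hz => by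
          rw [hrg]; exact mem_range.1 (mem_filter.1 hz).1) (fun z hz => (mem_filter.1 hz).2)
      have h7 := card_filter_add_card_filter_not (s := range q)
        (fun z => Same P s (Function.update s (r, l r) z))
      rw [card_range] at h7
      omega
    calc (q - 2 * Δ * ℓ) * S.card = ∑ s ∈ S, (q - 2 * Δ * ℓ) := by
          rw [sum_const, smul_eq_mul, mul_comm]
      _ ≤ _ := sum_le_sum h5
  calc (q - 2 * Δ * ℓ) * S.card ≤ C.card * (2 * Δ) := h4.trans h2
    _ ≤ ℓ * (box (rg m q)).card * (2 * Δ) := Nat.mul_le_mul_right _ h3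
    _ = _ := by ring

end Pool.Agent.J4.H34.PH
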