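import Mathlib
import Pool.Agent.J4.H34.PH.Gen

/-!
# Counting the inputs and labels at which a planted solution is noticed
-/

set_option autoImplicit false
set_option linter.unusedSectionVars false

open Finset

namespace Pool.Agent.J4.H34.PH

open Pool.Agent.J4.H80.Gen Pool.Agent.J4.H80.Cover

variable {m : ℕ} {Φ V : Type*} {q Δ κ : ℕ}

open Classical in
lemma cov_le (P : PAlg m Φ V q Δ κ) (s : Pt m) :
    ((univ : Finset (Lab m)).filter fun l => Covd P s l).card ≤ κ ^ 2 * (P.F s).card * m := by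
  set X : Finset (Σ _ : Φ, ((Fin 3 × Fin m) × (Fin 3 × Fin m)) × Fin m) := (P.F s).sigma fun u =>
    (P.X u ×ˢ P.X u) ×ˢ univ with hX
  have h1 : X.card ≤ κ ^ 2 * (P.F s).card * m := by
    rw [hX, card_sigma]
    calc _ ≤ ∑ u ∈ P.F s, κ ^ 2 * m := by
          refine sum_le_sum fun u hu => ?_
          rw [card_product, card_product, card_univ, Fintype.card_fin, sq]
          apply Nat.mul_le_mul_right
          exact Nat.mul_le_mul (P.few u (P.hC s u hu)) (P.few u (P.hC s u hu))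
      _ = κ ^ 2 * (P.F s).card * m := by rw [sum_const, smul_eq_mul]; ring
  refine le_trans (card_le_card_of_forall_subsingleton
    (fun l x => ∃ r r' r'', r ≠ r' ∧ r ≠ r'' ∧ r' ≠ r'' ∧ x.2.1.1 = (r, l r) ∧
      x.2.1.2 = (r', l r') ∧ x.2.2 = l r'') ?_ ?_) h1
  · intro l hl
    obtain ⟨u, hu, v, hv, huv⟩ := (mem_filter.1 hl).2
    have h3 : ∃ w ∈ P.F s, ∃ r r' r'' : Fin 3, r ≠ r' ∧ r ≠ r'' ∧ r' ≠ r'' ∧ (r, l r) ∈ P.X w ∧
        (r', l r') ∈ P.X w := by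
      have a0 := huv 0
      have a1 := huv 1
      have a2 := huv 2
      rcases a0 with a0 | a0
      · rcases a1 with a1 | a1
        · exact ⟨u, hu, 0, 1, 2, by decide, by decide, by decide, a0, a1⟩
        · rcases a2 with a2 | a2
          · exact ⟨u, hu, 0, 2, 1, by decide, by decide, by decide, a0, a2⟩
          · exact ⟨v, hv, 1, 2, 0, by decide, by decide, by decide, a1, a2⟩
      · rcases a1 with a1 | a1
        · rcases a2 with a2 | a2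
          · exact ⟨u, hu, 1, 2, 0, by decide, by decide, by decide, a1, a2⟩
          · exact ⟨v, hv, 0, 2, 1, by decide, by decide, by decide, a0, a2⟩
        · exact ⟨v, hv, 0, 1, 2, by decide, by decide, by decide, a0, a1⟩
    obtain ⟨w, hw, r, r', r'', h4, h5, h6, e1, e2⟩ := h3
    refine ⟨⟨w, ((r, l r), (r', l r')), l r''⟩, ?_, r, r', r'', h4, h5, h6, rfl, rfl, rfl⟩
    rw [hX, mem_sigma, mem_product, mem_product]
    exact ⟨hw, ⟨e1, e2⟩, mem_univ _⟩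
  · rintro x _ l ⟨hl, r, r', r'', h4, h5, h6, e1, e2, e3⟩ l' ⟨hl', t, t', t'', g4, g5, g6, f1, f2, f3⟩
    rw [e1] at f1
    rw [e2] at f2
    rw [e3] at f3
    simp only [Prod.mk.injEq] at f1 f2
    obtain ⟨g1, g2⟩ := f1
    obtain ⟨g3, g7⟩ := f2
    subst g1
    subst g3
    have ht : t'' = r'' := by
      fin_cases r <;> fin_cases r' <;> fin_cases r'' <;> fin_cases t'' <;> simp at *
    subst ht
    have hall : ∀ i : Fin 3, i = r ∨ i = r' ∨ i = t'' := by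
      intro i
      fin_cases r <;> fin_cases r' <;> fin_cases t'' <;> fin_cases i <;> simp at *
    funext i
    rcases hall i with h | h | h
    · rw [h]; exact g2
    · rw [h]; exact g7
    · rw [h]; exact f3

open Classical in
/-- the inputs and labels at which a short run notices the planted solution -/
noncomputable def Bad (P : PAlg m Φ V q Δ κ) (T : ℕ) : Finset (Pt m × Lab m) :=
  (box (rg m q) ×ˢ univ).filter fun p => (P.F p.1).card ≤ T ∧ ¬ Same P p.1 (plant p.1 p.2)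

open Classical in
lemma card_N1 (P : PAlg m Φ V q Δ κ) (T ℓ : ℕ) :
    ℓ * ((box (rg m q) ×ˢ (univ : Finset (Lab m))).filter fun p => (P.F p.1).card ≤ T ∧
      ∃ r, ℓ < (D P (r, p.2 r) p.1).card).card ≤
      (box (rg m q)).card * (m ^ 2 * (2 * κ * T ^ 2)) := by
  rw [card_prod_filter (box (rg m q)) (univ : Finset (Lab m)) (fun s l => (P.F s).card ≤ T ∧
      ∃ r, ℓ < (D P (r, l r) s).card), mul_sum, ← smul_eq_mul, ← sum_const]
  refine sum_le_sum fun s _ => ?_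
  by_cases hs : (P.F s).card ≤ T
  swap
  · simp [hs]
  set H : Finset (Fin 3 × Fin m) := univ.filter fun b => ℓ < (D P b s).card with hH
  have h1 : ((univ : Finset (Lab m)).filter fun l => (P.F s).card ≤ T ∧
      ∃ r, ℓ < (D P (r, l r) s).card) ⊆ H.biUnion fun b => univ.filter fun l => l b.1 = b.2 := by
    intro l hl
    obtain ⟨_, _, r, hr⟩ := mem_filter.1 hl
    rw [mem_biUnion]
    exact ⟨(r, l r), mem_filter.2 ⟨mem_univ _, hr⟩, mem_filter.2 ⟨mem_univ _, rfl⟩⟩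
  have h2 : ((univ : Finset (Lab m)).filter fun l => (P.F s).card ≤ T ∧
      ∃ r, ℓ < (D P (r, l r) s).card).card ≤ H.card * m ^ 2 := by
    refine (card_le_card h1).trans (card_biUnion_le.trans ?_)
    calc _ ≤ ∑ b ∈ H, m ^ 2 := sum_le_sum fun b _ => card_label b
      _ = H.card * m ^ 2 := by rw [sum_const, smul_eq_mul]
  have h3 : ℓ * H.card ≤ 2 * κ * T ^ 2 := by
    calc ℓ * H.card = ∑ b ∈ H, ℓ := by rw [sum_const, smul_eq_mul, mul_comm]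
      _ ≤ ∑ b ∈ H, (D P b s).card := sum_le_sum fun b hb => (mem_filter.1 hb).2.le
      _ ≤ ∑ b, (D P b s).card := sum_le_sum_of_subset (subset_univ _)
      _ ≤ 2 * κ * (P.F s).card ^ 2 := sum_D_le s
      _ ≤ 2 * κ * T ^ 2 := Nat.mul_le_mul_left _ (Nat.pow_le_pow_left hs 2)
  calc _ ≤ ℓ * (H.card * m ^ 2) := Nat.mul_le_mul_left _ h2
    _ = m ^ 2 * (ℓ * H.card) := by ring
    _ ≤ m ^ 2 * (2 * κ * T ^ 2) := Nat.mul_le_mul_left _ h3

open Classical in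
lemma card_N2 (P : PAlg m Φ V q Δ κ) (ℓ : ℕ) :
    q * ((box (rg m q) ×ˢ (univ : Finset (Lab m))).filter fun p => ∃ r,
      (D P (r, p.2 r) p.1).card ≤ ℓ ∧ ∃ x ∈ D P (r, p.2 r) p.1,
      Exc (Eb P p.1 (r, p.2 r) x) (rg m q (r, p.2 r)) Δ (p.1 (r, p.2 r))).card ≤
      m ^ 3 * (3 * ((4 * Δ * ℓ + 1) * (box (rg m q)).card)) := by
  rw [card_prod_filter' (box (rg m q)) (univ : Finset (Lab m)) (fun s l => ∃ r,
    (D P (r, l r) s).card ≤ ℓ ∧ ∃ x ∈ D P (r, l r) s,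
      Exc (Eb P s (r, l r) x) (rg m q (r, l r)) Δ (s (r, l r))), mul_sum]
  have h0 : m ^ 3 = (univ : Finset (Lab m)).card := by simp
  rw [h0, ← smul_eq_mul (a := (univ : Finset (Lab m)).card), ← sum_const]
  refine sum_le_sum fun l _ => ?_
  have h1 : ((box (rg m q)).filter fun s => ∃ r, (D P (r, l r) s).card ≤ ℓ ∧
      ∃ x ∈ D P (r, l r) s, Exc (Eb P s (r, l r) x) (rg m q (r, l r)) Δ (s (r, l r))) ⊆
      (univ : Finset (Fin 3)).biUnion fun r => (box (rg m q)).filter fun s =>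
      (D P (r, l r) s).card ≤ ℓ ∧
      ∃ x ∈ D P (r, l r) s, Exc (Eb P s (r, l r) x) (rg m q (r, l r)) Δ (s (r, l r)) := by
    intro s hs
    obtain ⟨hs1, r, hr⟩ := mem_filter.1 hs
    exact mem_biUnion.2 ⟨r, mem_univ _, mem_filter.2 ⟨hs1, hr⟩⟩
  calc _ ≤ q * ∑ r : Fin 3, ((box (rg m q)).filter fun s => (D P (r, l r) s).card ≤ ℓ ∧
      ∃ x ∈ D P (r, l r) s, Exc (Eb P s (r, l r) x) (rg m q (r, l r)) Δ (s (r, l r))).card :=
        Nat.mul_le_mul_left _ ((card_le_card h1).trans card_biUnion_le)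
    _ = ∑ r : Fin 3, q * ((box (rg m q)).filter fun s => (D P (r, l r) s).card ≤ ℓ ∧
      ∃ x ∈ D P (r, l r) s, Exc (Eb P s (r, l r) x) (rg m q (r, l r)) Δ (s (r, l r))).card :=
        mul_sum _ _ _
    _ ≤ ∑ r : Fin 3, (4 * Δ * ℓ + 1) * (box (rg m q)).card := by
      refine sum_le_sum fun r _ => ?_
      refine le_trans (Nat.mul_le_mul_right _ (rg_ge q (r, l r))) ?_
      apply card_eqbad_le (P := P) ℓ (r, l r) _ (filter_subset _ _)
      intro s hs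
      exact (mem_filter.1 hs).2
    _ = 3 * ((4 * Δ * ℓ + 1) * (box (rg m q)).card) := by simp

open Classical in
lemma card_N3 (P : PAlg m Φ V q Δ κ) (T : ℕ) :
    ((box (rg m q) ×ˢ (univ : Finset (Lab m))).filter fun p => (P.F p.1).card ≤ T ∧
      Covd P p.1 p.2).card ≤ (box (rg m q)).card * (κ ^ 2 * T * m) := by
  rw [card_prod_filter (box (rg m q)) (univ : Finset (Lab m)) (fun s l => (P.F s).card ≤ T ∧
      Covd P s l), ← smul_eq_mul, ← sum_const]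
  refine sum_le_sum fun s _ => ?_
  by_cases hs : (P.F s).card ≤ T
  swap
  · simp [hs]
  have h1 : ((univ : Finset (Lab m)).filter fun l => (P.F s).card ≤ T ∧ Covd P s l).card ≤
      κ ^ 2 * (P.F s).card * m := by
    refine le_trans (card_le_card ?_) (cov_le P s)
    intro l hl
    exact mem_filter.2 ⟨mem_univ _, (mem_filter.1 hl).2.2⟩
  refine h1.trans ?_
  gcongr

open Classical in
lemma card_N4 (P : PAlg m Φ V q Δ κ) (ℓ : ℕ) {r : Fin 3} (hr : r ≠ 2) :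
    (q - 2 * Δ * ℓ) * ((box (rg m q) ×ˢ (univ : Finset (Lab m))).filter fun p =>
      p.1 ∈ Sb P ℓ p.2 r).card ≤ m ^ 3 * (2 * Δ * ℓ * (box (rg m q)).card) := by
  rw [card_prod_filter' (box (rg m q)) (univ : Finset (Lab m)) (fun s l => s ∈ Sb P ℓ l r), mul_sum]
  have h0 : m ^ 3 = (univ : Finset (Lab m)).card := by simp
  rw [h0, ← smul_eq_mul (a := (univ : Finset (Lab m)).card), ← sum_const]
  refine sum_le_sum fun l _ => ?_
  refine le_trans (Nat.mul_le_mul_left _ (card_le_card ?_)) (card_Sb_le (P := P) ℓ l hr)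
  intro s hs
  exact (mem_filter.1 hs).2

open Classical in
lemma Bad_subset (P : PAlg m Φ V q Δ κ) (ℓ T : ℕ) : Bad P T ⊆
    (((box (rg m q) ×ˢ (univ : Finset (Lab m))).filter fun p => (P.F p.1).card ≤ T ∧
      ∃ r, ℓ < (D P (r, p.2 r) p.1).card) ∪
    ((box (rg m q) ×ˢ (univ : Finset (Lab m))).filter fun p => ∃ r,
      (D P (r, p.2 r) p.1).card ≤ ℓ ∧ ∃ x ∈ D P (r, p.2 r) p.1,
      Exc (Eb P p.1 (r, p.2 r) x) (rg m q (r, p.2 r)) Δ (p.1 (r, p.2 r)))) ∪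
    (((box (rg m q) ×ˢ (univ : Finset (Lab m))).filter fun p => (P.F p.1).card ≤ T ∧
      Covd P p.1 p.2) ∪
    (((box (rg m q) ×ˢ (univ : Finset (Lab m))).filter fun p => p.1 ∈ Sb P ℓ p.2 0) ∪
    ((box (rg m q) ×ˢ (univ : Finset (Lab m))).filter fun p => p.1 ∈ Sb P ℓ p.2 1))) := by
  rintro ⟨s, l⟩ hp
  rw [Bad, mem_filter] at hp
  obtain ⟨hb, hT, hns⟩ := hp
  simp only at hT hns
  simp only [mem_union, mem_filter]
  by_cases h1 : ∃ r, ℓ < (D P (r, l r) s).card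
  · exact Or.inl (Or.inl ⟨hb, hT, h1⟩)
  push Not at h1
  by_cases h2 : ∃ r, (D P (r, l r) s).card ≤ ℓ ∧
      ∃ x ∈ D P (r, l r) s, Exc (Eb P s (r, l r) x) (rg m q (r, l r)) Δ (s (r, l r))
  · exact Or.inl (Or.inr ⟨hb, h2⟩)
  push Not at h2
  right
  have hg : ∀ r, Good P ℓ (r, l r) s := fun r => ⟨h1 r, h2 r (h1 r)⟩
  obtain ⟨p, hp, hpe⟩ := exists_pair (hg 2) hns
  have hbox := (mem_product.1 hb).1
  by_cases h30 : (0, l 0) ∈ P.X p.1 ∨ (0, l 0) ∈ P.X p.2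
  swap
  · right
    left
    refine ⟨hb, ?_⟩
    rw [Sb, mem_filter]
    exact ⟨hbox, h1 2, hg 0, p, hp, exc_diag hbox (by decide) hpe h30⟩
  by_cases h31 : (1, l 1) ∈ P.X p.1 ∨ (1, l 1) ∈ P.X p.2
  swap
  · right
    right
    refine ⟨hb, ?_⟩
    rw [Sb, mem_filter]
    exact ⟨hbox, h1 2, hg 1, p, hp, exc_diag hbox (by decide) hpe h31⟩
  left
  refine ⟨hb, hT, p.1, (mem_D.1 hp).1.1, p.2, (mem_D.1 hp).1.2, ?_⟩
  intro r
  fin_cases r
  · exact h30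
  · exact h31
  · exact (mem_D.1 hp).2

theorem card_Bad (P : PAlg m Φ V q Δ κ) (T ℓ : ℕ) (hℓ : 0 < ℓ) (hq : 2 * Δ * ℓ < q)
    (hm : 0 < m) :
    ((Bad P T).card : ℝ) ≤ (box (rg m q)).card * (m : ℝ) ^ 3 * (2 * κ * T ^ 2 / (ℓ * m) +
      3 * (4 * Δ * ℓ + 1) / q + κ ^ 2 * T / m ^ 2 +
      4 * Δ * ℓ / ((q : ℝ) - 2 * Δ * ℓ)) := by
  classical
  have h1 := (card_le_card (Bad_subset P ℓ T)).trans ((card_union_le _ _).trans
    (add_le_add (card_union_le _ _) ((card_union_le _ _).trans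
    (add_le_add le_rfl (card_union_le _ _)))))
  have h2 := card_N1 P T ℓ
  have h3 := card_N2 P ℓ
  have h4 := card_N3 P T
  have h5 := card_N4 P ℓ (r := 0) (by decide)
  have h5' := card_N4 P ℓ (r := 1) (by decide)
  set a1 := ((box (rg m q) ×ˢ (univ : Finset (Lab m))).filter fun p => (P.F p.1).card ≤ T ∧
      ∃ r, ℓ < (D P (r, p.2 r) p.1).card).card
  set a2 := ((box (rg m q) ×ˢ (univ : Finset (Lab m))).filter fun p => ∃ r,
      (D P (r, p.2 r) p.1).card ≤ ℓ ∧ ∃ x ∈ D P (r, p.2 r) p.1,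
      Exc (Eb P p.1 (r, p.2 r) x) (rg m q (r, p.2 r)) Δ (p.1 (r, p.2 r))).card
  set a3 := ((box (rg m q) ×ˢ (univ : Finset (Lab m))).filter fun p => (P.F p.1).card ≤ T ∧
      Covd P p.1 p.2).card
  set a4 := ((box (rg m q) ×ˢ (univ : Finset (Lab m))).filter fun p => p.1 ∈ Sb P ℓ p.2 0).card
  set a5 := ((box (rg m q) ×ˢ (univ : Finset (Lab m))).filter fun p => p.1 ∈ Sb P ℓ p.2 1).card
  have hℓ' : (0 : ℝ) < ℓ := by exact_mod_cast hℓ
  have hq' : (2 * Δ * ℓ : ℝ) < q := by exact_mod_cast hq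
  have hq0 : (0 : ℝ) < q := lt_of_le_of_lt (by positivity) hq'
  have hm' : (0 : ℝ) < m := by exact_mod_cast hm
  set Bx : ℕ := (box (rg m q)).card with hBx
  have hb : (0 : ℝ) ≤ Bx := Nat.cast_nonneg _
  have e1 : ((a1 : ℕ) : ℝ) ≤ Bx * (m : ℝ) ^ 3 * (2 * κ * T ^ 2 / (ℓ * m)) := by
    have h6 : (ℓ : ℝ) * a1 ≤ Bx * (m ^ 2 * (2 * κ * T ^ 2)) := by exact_mod_cast h2
    have h7 : Bx * (m : ℝ) ^ 3 * (2 * κ * T ^ 2 / (ℓ * m)) =
        (Bx * (m ^ 2 * (2 * κ * T ^ 2))) / ℓ := by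
      field_simp
    rw [h7, le_div_iff₀ hℓ']
    linarith
  have e2 : ((a2 : ℕ) : ℝ) ≤ Bx * (m : ℝ) ^ 3 * (3 * (4 * Δ * ℓ + 1) / q) := by
    have h6 : (q : ℝ) * a2 ≤ m ^ 3 * (3 * ((4 * Δ * ℓ + 1) * Bx)) := by exact_mod_cast h3
    have h7 : Bx * (m : ℝ) ^ 3 * (3 * (4 * Δ * ℓ + 1) / q) =
        (m ^ 3 * (3 * ((4 * Δ * ℓ + 1) * Bx))) / q := by
      field_simp
    rw [h7, le_div_iff₀ hq0]
    linarith
  have e3 : ((a3 : ℕ) : ℝ) ≤ Bx * (m : ℝ) ^ 3 * (κ ^ 2 * T / m ^ 2) := by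
    have h6 : (a3 : ℝ) ≤ Bx * (κ ^ 2 * T * m) := by exact_mod_cast h4
    have h7 : Bx * (m : ℝ) ^ 3 * (κ ^ 2 * T / m ^ 2) = Bx * (κ ^ 2 * T * m) := by
      field_simp
    rw [h7]
    exact h6
  have h8 : (0 : ℝ) < q - 2 * Δ * ℓ := sub_pos.2 hq'
  have e4 : ((a4 : ℕ) : ℝ) ≤ Bx * (m : ℝ) ^ 3 * (2 * Δ * ℓ / ((q : ℝ) - 2 * Δ * ℓ)) := by
    have h6 : ((q : ℝ) - 2 * Δ * ℓ) * a4 ≤ m ^ 3 * (2 * Δ * ℓ * Bx) := by
      have : (((q - 2 * Δ * ℓ : ℕ) : ℝ)) * a4 ≤ m ^ 3 * (2 * Δ * ℓ * Bx) := by exact_mod_cast h5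
      rw [Nat.cast_sub hq.le] at this
      push_cast at this
      exact this
    have h7 : Bx * (m : ℝ) ^ 3 * (2 * Δ * ℓ / ((q : ℝ) - 2 * Δ * ℓ)) =
        (m ^ 3 * (2 * Δ * ℓ * Bx)) / ((q : ℝ) - 2 * Δ * ℓ) := by
      field_simp
    rw [h7, le_div_iff₀ h8]
    linarith
  have e5 : ((a5 : ℕ) : ℝ) ≤ Bx * (m : ℝ) ^ 3 * (2 * Δ * ℓ / ((q : ℝ) - 2 * Δ * ℓ)) := by
    have h6 : ((q : ℝ) - 2 * Δ * ℓ) * a5 ≤ m ^ 3 * (2 * Δ * ℓ * Bx) := by
      have : (((q - 2 * Δ * ℓ : ℕ) : ℝ)) * a5 ≤ m ^ 3 * (2 * Δ * ℓ * Bx) := by exact_mod_cast h5'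
      rw [Nat.cast_sub hq.le] at this
      push_cast at this
      exact this
    have h7 : Bx * (m : ℝ) ^ 3 * (2 * Δ * ℓ / ((q : ℝ) - 2 * Δ * ℓ)) =
        (m ^ 3 * (2 * Δ * ℓ * Bx)) / ((q : ℝ) - 2 * Δ * ℓ) := by
      field_simp
    rw [h7, le_div_iff₀ h8]
    linarith
  have h9 : ((Bad P T).card : ℝ) ≤ a1 + a2 + (a3 + (a4 + a5)) := by exact_mod_cast h1
  have h10 : Bx * (m : ℝ) ^ 3 * (2 * κ * T ^ 2 / (ℓ * m) +
      3 * (4 * Δ * ℓ + 1) / q + κ ^ 2 * T / m ^ 2 + 4 * Δ * ℓ / ((q : ℝ) - 2 * Δ * ℓ)) =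
      Bx * (m : ℝ) ^ 3 * (2 * κ * T ^ 2 / (ℓ * m)) +
      Bx * (m : ℝ) ^ 3 * (3 * (4 * Δ * ℓ + 1) / q) +
      Bx * (m : ℝ) ^ 3 * (κ ^ 2 * T / m ^ 2) +
      (Bx * (m : ℝ) ^ 3 * (2 * Δ * ℓ / ((q : ℝ) - 2 * Δ * ℓ)) +
      Bx * (m : ℝ) ^ 3 * (2 * Δ * ℓ / ((q : ℝ) - 2 * Δ * ℓ))) := by ring
  rw [h10]
  linarith

end Pool.Agent.J4.H34.PH
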