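import Mathlib
import Pool.Agent.J4.H34.PH.Gen

/-!
# Two rational functions on a line
-/

set_option autoImplicit false
set_option linter.unusedSectionVars false

open Finset

namespace Pool.Agent.J4.H34.PH

/-- the natural numbers below `R` are different in `K` -/
def BigField (R : ℕ) (K : Type*) [Field K] : Prop := ∀ n : ℕ, 0 < n → n < R → (n : K) ≠ 0

lemma BigField.injOn {R : ℕ} {K : Type*} [Field K] (h : BigField R K) :
    Set.InjOn (fun z : ℕ => (z : K)) (Set.Iio R) := by
  have key : ∀ a c : ℕ, a < c → c < R → ((a : ℕ) : K) ≠ ((c : ℕ) : K) := by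
    intro a c hac hc heq
    apply h (c - a) (by omega) (by omega)
    rw [Nat.cast_sub hac.le, heq, sub_self]
  intro a ha c hc heq
  rcases lt_trichotomy a c with h1 | h1 | h1
  · exact absurd heq (key a c h1 hc)
  · exact h1
  · exact absurd heq.symm (key c a h1 ha)

open Classical in
lemma roots_le {R : ℕ} {K : Type*} [Field K] (h : BigField R K) {P : Polynomial K} (hP : P ≠ 0)
    {d : ℕ} (hd : P.natDegree ≤ d) :
    ((range R).filter fun z : ℕ => P.eval (z : K) = 0).card ≤ d := by
  have h1 : ((range R).filter fun z : ℕ => P.eval (z : K) = 0).card ≤ P.roots.toFinset.card := by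
    apply card_le_card_of_injOn (fun z : ℕ => (z : K))
    · intro z hz
      simp only [coe_filter, mem_range, Set.mem_ofPred_eq] at hz
      rw [mem_coe, Multiset.mem_toFinset, Polynomial.mem_roots hP]
      exact hz.2
    · intro a ha b hb hab
      simp only [coe_filter, mem_range, Set.mem_ofPred_eq] at ha hb
      exact h.injOn ha.1 hb.1 hab
  exact h1.trans ((Multiset.toFinset_card_le _).trans ((Polynomial.card_roots' P).trans hd))

/-- two fractions of polynomials in one variable are equal at few points or different at few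
points -/
lemma dich_poly {R : ℕ} {K : Type*} [Field K] (h : BigField R K) {d : ℕ}
    (A B A' B' : Polynomial K) (hA : A.natDegree ≤ d) (hB : B.natDegree ≤ d)
    (hA' : A'.natDegree ≤ d) (hB' : B'.natDegree ≤ d) :
    Dich (fun z : ℕ => A.eval (z : K) / B.eval (z : K) = A'.eval (z : K) / B'.eval (z : K)) R
      (4 * d) := by
  classical
  -- we may assume that the denominators are not zero
  have main : ∀ A B A' B' : Polynomial K, A.natDegree ≤ d → B.natDegree ≤ d →
      A'.natDegree ≤ d → B'.natDegree ≤ d → B ≠ 0 → B' ≠ 0 →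
      Dich (fun z : ℕ => A.eval (z : K) / B.eval (z : K) = A'.eval (z : K) / B'.eval (z : K)) R
        (4 * d) := by
    clear hA hB hA' hB' A B A' B'
    intro A B A' B' hA hB hA' hB' hB0 hB0'
    have z1 := roots_le h hB0 hB
    have z2 := roots_le h hB0' hB'
    have hsub : ∀ z : ℕ, B.eval (z : K) ≠ 0 → B'.eval (z : K) ≠ 0 →
        (A.eval (z : K) / B.eval (z : K) = A'.eval (z : K) / B'.eval (z : K) ↔
          (A * B' - A' * B).eval (z : K) = 0) := by
      intro z h1 h2
      rw [div_eq_div_iff h1 h2, Polynomial.eval_sub, Polynomial.eval_mul, Polynomial.eval_mul,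
        sub_eq_zero]
    by_cases hP : A * B' - A' * B = 0
    · right
      refine le_trans (card_le_card (t := ((range R).filter fun z : ℕ => B.eval (z : K) = 0) ∪
        ((range R).filter fun z : ℕ => B'.eval (z : K) = 0)) ?_)
        ((card_union_le _ _).trans (by omega))
      intro z hz
      obtain ⟨h1, h2⟩ := mem_filter.1 hz
      rw [mem_union, mem_filter, mem_filter]
      by_contra hcon
      push Not at hcon
      apply h2
      rw [hsub z (hcon.1 h1) (hcon.2 h1), hP, Polynomial.eval_zero]
    · left
      have hdeg : (A * B' - A' * B).natDegree ≤ 2 * d := by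
        refine (Polynomial.natDegree_sub_le _ _).trans (max_le ?_ ?_)
        · refine Polynomial.natDegree_mul_le.trans ?_
          omega
        · refine Polynomial.natDegree_mul_le.trans ?_
          omega
      have z3 := roots_le h hP hdeg
      refine le_trans (card_le_card (t := (((range R).filter fun z : ℕ => B.eval (z : K) = 0) ∪
        ((range R).filter fun z : ℕ => B'.eval (z : K) = 0)) ∪
        ((range R).filter fun z : ℕ => (A * B' - A' * B).eval (z : K) = 0)) ?_)
        ((card_union_le _ _).trans ((Nat.add_le_add_right (card_union_le _ _) _).trans (by omega)))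
      intro z hz
      obtain ⟨h1, h2⟩ := mem_filter.1 hz
      rw [mem_union, mem_union, mem_filter, mem_filter, mem_filter]
      by_contra hcon
      push Not at hcon
      exact hcon.2 h1 ((hsub z (hcon.1.1 h1) (hcon.1.2 h1)).1 h2)
  have e : ∀ A B : Polynomial K, A.natDegree ≤ d → B.natDegree ≤ d → ∃ C E : Polynomial K,
      C.natDegree ≤ d ∧ E.natDegree ≤ d ∧ E ≠ 0 ∧
      ∀ z : K, A.eval z / B.eval z = C.eval z / E.eval z := by
    intro A B hA hB
    by_cases h0 : B = 0
    · refine ⟨0, 1, by simp, by simp, one_ne_zero, fun z => ?_⟩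
      rw [h0]
      simp
    · exact ⟨A, B, hA, hB, h0, fun z => rfl⟩
  obtain ⟨C, E, c1, c2, c3, c4⟩ := e A B hA hB
  obtain ⟨C', E', c1', c2', c3', c4'⟩ := e A' B' hA' hB'
  have := main C E C' E' c1 c2 c1' c2' c3 c3'
  have hfun : (fun z : ℕ => A.eval (z : K) / B.eval (z : K) = A'.eval (z : K) / B'.eval (z : K)) =
      fun z : ℕ => C.eval (z : K) / E.eval (z : K) = C'.eval (z : K) / E'.eval (z : K) := by
    funext z
    rw [c4, c4']
  rw [hfun]
  exact this

/-- the restriction of a polynomial to a line -/
noncomputable def onLine {σ : Type*} {K : Type*} [Field K] (x y : σ → ℤ) (P : MvPolynomial σ K) :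
    Polynomial K :=
  MvPolynomial.aeval (fun i => Polynomial.C (x i : K) + Polynomial.C (y i : K) * Polynomial.X) P

lemma onLine_degree {σ : Type*} {K : Type*} [Field K] (x y : σ → ℤ) (P : MvPolynomial σ K) {d : ℕ}
    (hP : P.totalDegree ≤ d) : (onLine x y P).natDegree ≤ d := by
  have := MvPolynomial.aeval_natDegree_le P hP
    (fun i => Polynomial.C (x i : K) + Polynomial.C (y i : K) * Polynomial.X) (n := 1) (by
      intro i
      refine (Polynomial.natDegree_add_le _ _).trans (max_le ?_ ?_)
      · simp
      · refine (Polynomial.natDegree_C_mul_le _ _).trans ?_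
        exact Polynomial.natDegree_X_le)
  rw [mul_one] at this
  exact this

lemma onLine_eval {σ : Type*} {K : Type*} [Field K] (x y : σ → ℤ) (P : MvPolynomial σ K) (z : ℕ) :
    (onLine x y P).eval (z : K) = MvPolynomial.eval (fun i => ((x i + y i * z : ℤ) : K)) P := by
  unfold onLine
  rw [← Polynomial.coe_evalRingHom, ← AlgHom.coe_toRingHom, ← RingHom.comp_apply]
  congr 1
  apply MvPolynomial.ringHom_ext
  · intro r
    simp
  · intro i
    simp

end Pool.Agent.J4.H34.PH
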