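import Mathlib

/-!
# Randomized algorithms for 3SUM which compute rational functions and see equalities

Such an algorithm computes values of rational functions of few input numbers and sees all equalities
among them (a hash table). It has no other access to the input.
-/

set_option autoImplicit false

open MeasureTheory
open scoped ENNReal

namespace Pool.Agent.J4.H34.PH

/-- A rational function (numerator and denominator) of the input numbers over one of the fields
`K i`. -/
structure Form {ι : Type} (K : ι → Type) [∀ i, Field (K i)] (n : ℕ) where
  /-- the field -/
  idx : ι
  /-- the numerator -/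
  num : MvPolynomial (Fin n) (K idx)
  /-- the denominator -/
  den : MvPolynomial (Fin n) (K idx)

section

variable {ι : Type} {K : ι → Type} [∀ i, Field (K i)] {n : ℕ}

/-- The value of a rational function, together with the name of the field (where `a / 0 = 0`). -/
noncomputable def Form.val (u : Form K n) (x : Fin n → ℤ) : Σ i, K i :=
  ⟨u.idx, MvPolynomial.eval (fun j => (x j : K u.idx)) u.num /
    MvPolynomial.eval (fun j => (x j : K u.idx)) u.den⟩

/-- Numerator and denominator have degree at most `Δ`, and at most `κ` input numbers occur. -/
def Form.Ok (κ Δ : ℕ) (u : Form K n) : Prop :=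
  u.num.totalDegree ≤ Δ ∧ u.den.totalDegree ≤ Δ ∧ (u.num.vars ∪ u.den.vars).card ≤ κ

variable (K n) in
/-- Deterministic algorithms: such an algorithm stops with an answer, or it computes the value of a
rational function and continues according to the answer `e : ℕ → Bool` of the hash table, where
`e s` says whether the new value is equal to the value computed in step `s`. -/
inductive Prog : Type
  | out (b : Bool) : Prog
  | step (u : Form K n) (next : (ℕ → Bool) → Prog) : Prog

/-- All rational functions of the algorithm have degree at most `Δ` and at most `κ` variables. -/
def Prog.Uses (κ Δ : ℕ) : Prog K n → Prop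
  | .out _ => True
  | .step u next => u.Ok κ Δ ∧ ∀ e, (next e).Uses κ Δ

open Classical in
/-- The answer of the hash table: which of the earlier values (those of the functions in `h`) are
equal to the value of `u`. -/
noncomputable def lookup (h : List (Form K n)) (u : Form K n) (x : Fin n → ℤ) (s : ℕ) : Bool :=
  decide (∃ v, h[s]? = some v ∧ v.val x = u.val x)

/-- The run on the input `x` after the functions in `h` have been computed: the list of all computed
functions, and the answer. -/
noncomputable def Prog.run : Prog K n → List (Form K n) → (Fin n → ℤ) → List (Form K n) × Bool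
  | .out b, h, _ => (h, b)
  | .step u next, h, x => (next (lookup h u x)).run (h ++ [u]) x

/-- The number of rational functions computed on the input `x`. -/
noncomputable def Prog.cost (p : Prog K n) (x : Fin n → ℤ) : ℕ := (p.run [] x).1.length

/-- The answer on the input `x`. -/
noncomputable def Prog.answer (p : Prog K n) (x : Fin n → ℤ) : Bool := (p.run [] x).2

end

/-- The valid inputs: `n` distinct integers in `[-N, N]`, in any order. -/
def Valid {n : ℕ} (N : ℕ) (x : Fin n → ℤ) : Prop :=
  Function.Injective x ∧ ∀ i, |x i| ≤ N

/-- The 3SUM question. -/
def Has3Sum {n : ℕ} (x : Fin n → ℤ) : Prop :=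
  ∃ i j k, i ≠ j ∧ i ≠ k ∧ j ≠ k ∧ x i + x j = x k

/-- The randomized algorithm `p` uses rational functions of degree at most `Δ` with at most `κ`
variables, its expected cost is at most `T` on each valid input, and on each valid input it answers
the 3SUM question with error probability at most `1 / 3`. -/
structure Solves {ι : Type} {K : ι → Type} [∀ i, Field (K i)] {n : ℕ} (N κ Δ : ℕ) (T : ℝ)
    {Ω : Type} [MeasurableSpace Ω] (μ : Measure Ω) (p : Ω → Prog K n) : Prop where
  uses : ∀ ω, (p ω).Uses κ Δ
  measurable_cost : ∀ x, Valid N x → Measurable fun ω => (p ω).cost x
  measurable_answer : ∀ x, Valid N x → Measurable fun ω => (p ω).answer x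
  cost_le : ∀ x, Valid N x → ∫⁻ ω, ((p ω).cost x : ℝ≥0∞) ∂μ ≤ ENNReal.ofReal T
  error_le : ∀ x, Valid N x →
    μ {ω | ¬ ((p ω).answer x = true ↔ Has3Sum x)} ≤ ENNReal.ofReal (1 / 3)

end Pool.Agent.J4.H34.PH
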