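import Mathlib
import Pool.Agent.J4.H34.PH.Model
import Pool.Agent.J4.H34.PH.Bad
import Pool.Agent.J4.H34.PH.Line

/-!
# The hard inputs

The inputs and the lemmas on them are those of helper80's `GenericHashing` (MP_13bec0_lc).
-/

set_option autoImplicit false
set_option linter.unusedSectionVars false

open Finset MeasureTheory
open scoped ENNReal

namespace Pool.Agent.J4.H34.PH

open Pool.Agent.J4.H80.Gen Pool.Agent.J4.H80.Cover

/-! ### The hard inputs -/

section hard


variable {n m : ℕ}

/-- the residues modulo 16 of the three blocks -/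
def rho : Fin 3 → ℕ := ![1, 4, 5]

/-- the input which belongs to `s` -/
def inp (n m : ℕ) (s : Fin 3 × Fin m → ℕ) (i : Fin n) : ℤ :=
  if h : i.val < 3 * m then 16 * ((s (finProdFinEquiv.symm ⟨i.val, h⟩) : ℕ) : ℤ) +
    (rho (finProdFinEquiv.symm ⟨i.val, h⟩).1 : ℕ) else 16 * ((i.val : ℕ) : ℤ) + 11

/-- the positions of the three blocks -/
def emb (hm : 3 * m ≤ n) (b : Fin 3 × Fin m) : Fin n :=
  ⟨(finProdFinEquiv b).val, lt_of_lt_of_le (finProdFinEquiv b).isLt hm⟩

lemma emb_injective (hm : 3 * m ≤ n) : Function.Injective (emb hm) := by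
  intro b b' h
  apply finProdFinEquiv.injective
  apply Fin.ext
  exact congrArg (fun i : Fin n => i.val) h

lemma inp_emb (hm : 3 * m ≤ n) (s : Fin 3 × Fin m → ℕ) (b : Fin 3 × Fin m) :
    inp n m s (emb hm b) = 16 * (s b : ℤ) + rho b.1 := by
  unfold inp
  have h : (emb hm b).val < 3 * m := (finProdFinEquiv b).isLt
  rw [dif_pos h]
  have h2 : finProdFinEquiv.symm ⟨(emb hm b).val, h⟩ = b := by
    rw [Equiv.symm_apply_eq]
    rfl
  rw [h2]

lemma inp_filler (s : Fin 3 × Fin m → ℕ) {i : Fin n} (h : ¬ i.val < 3 * m) :
    inp n m s i = 16 * (i.val : ℤ) + 11 := by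
  unfold inp
  rw [dif_neg h]

lemma exists_emb (hm : 3 * m ≤ n) {i : Fin n} (h : i.val < 3 * m) : ∃ b, i = emb hm b :=
  ⟨finProdFinEquiv.symm ⟨i.val, h⟩, by
    apply Fin.ext
    change i.val = (finProdFinEquiv (finProdFinEquiv.symm ⟨i.val, h⟩)).val
    rw [Equiv.apply_symm_apply]⟩


/-- the free numbers of the instances with answer no -/
def No (s : Fin 3 × Fin m → ℕ) : Prop :=
  (∀ r a a', s (r, a) = s (r, a') → a = a') ∧ ∀ i j k, s (0, i) + s (1, j) ≠ s (2, k)

lemma plant_mem {q : ℕ} {s : Fin 3 × Fin m → ℕ} (hs : s ∈ box (rg m q)) (l : Lab m) :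
    plant s l ∈ box (rg m q) := by
  apply update_mem_box hs
  have h0 := mem_box.1 hs (0, l 0)
  have h1 := mem_box.1 hs (1, l 1)
  have e0 : rg m q (0, l 0) = q := by simp [rg]
  have e1 : rg m q (1, l 1) = q := by simp [rg]
  have e2 : rg m q (2, l 2) = 2 * q := by simp [rg]
  omega

lemma plant_inj {s : Fin 3 × Fin m → ℕ} (hs : No s) (l : Lab m) (r : Fin 3) (a a' : Fin m)
    (h : plant s l (r, a) = plant s l (r, a')) : a = a' := by
  unfold plant at h
  by_cases h1 : ((r, a) : Fin 3 × Fin m) = (2, l 2)
  · by_cases h2 : ((r, a') : Fin 3 × Fin m) = (2, l 2)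
    · have := h1.trans h2.symm
      simpa using this
    · rw [h1, Function.update_self, Function.update_of_ne h2] at h
      have hr : r = 2 := by simpa using congrArg Prod.fst h1
      rw [hr] at h
      exact absurd h (hs.2 _ _ _)
  · by_cases h2 : ((r, a') : Fin 3 × Fin m) = (2, l 2)
    · rw [h2, Function.update_self, Function.update_of_ne h1] at h
      have hr : r = 2 := by simpa using congrArg Prod.fst h2
      rw [hr] at h
      exact absurd h.symm (hs.2 _ _ _)
    · rw [Function.update_of_ne h1, Function.update_of_ne h2] at h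
      exact hs.1 r a a' h

/-- the shape of an entry of the input -/
lemma shape (hm : 3 * m ≤ n) (s : Fin 3 × Fin m → ℕ) (i : Fin n) :
    (∃ a, i = emb hm (0, a) ∧ inp n m s i = 16 * (s (0, a) : ℤ) + 1) ∨
    (∃ a, i = emb hm (1, a) ∧ inp n m s i = 16 * (s (1, a) : ℤ) + 4) ∨
    (∃ a, i = emb hm (2, a) ∧ inp n m s i = 16 * (s (2, a) : ℤ) + 5) ∨
    (¬ i.val < 3 * m ∧ inp n m s i = 16 * (i.val : ℤ) + 11) := by
  by_cases h : i.val < 3 * m
  · obtain ⟨⟨r, a⟩, hb⟩ := exists_emb hm h
    have h1 := inp_emb (n := n) hm s (r, a)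
    rw [← hb] at h1
    fin_cases r
    · exact Or.inl ⟨a, hb, h1⟩
    · exact Or.inr (Or.inl ⟨a, hb, h1⟩)
    · exact Or.inr (Or.inr (Or.inl ⟨a, hb, h1⟩))
  · exact Or.inr (Or.inr (Or.inr ⟨h, inp_filler s h⟩))

lemma valid_inp (hm : 3 * m ≤ n) {q N : ℕ} (hq : 33 * q ≤ N) (hq1 : 1 ≤ q) (hN : 16 * n ≤ N)
    {s : Fin 3 × Fin m → ℕ}
    (hs : s ∈ box (rg m q)) (hinj : ∀ r a a', s (r, a) = s (r, a') → a = a') :
    Valid N (inp n m s) := by
  constructor
  · intro i j hij
    rcases shape hm s i with ⟨a, hi, ei⟩ | ⟨a, hi, ei⟩ | ⟨a, hi, ei⟩ | ⟨hi, ei⟩ <;>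
    rcases shape hm s j with ⟨a', hj, ej⟩ | ⟨a', hj, ej⟩ | ⟨a', hj, ej⟩ | ⟨hj, ej⟩ <;>
    rw [ei, ej] at hij
    · have h1 : s (0, a) = s (0, a') := by omega
      rw [hi, hj, hinj _ _ _ h1]
    · omega
    · omega
    · omega
    · omega
    · have h1 : s (1, a) = s (1, a') := by omega
      rw [hi, hj, hinj _ _ _ h1]
    · omega
    · omega
    · omega
    · omega
    · have h1 : s (2, a) = s (2, a') := by omega
      rw [hi, hj, hinj _ _ _ h1]
    · omega
    · omega
    · omega
    · omega
    · apply Fin.ext
      omega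
  · intro i
    have hb : ∀ b, s b < 2 * q := by
      intro b
      have h1 := mem_box.1 hs b
      unfold rg at h1
      split_ifs at h1 <;> omega
    rw [abs_le]
    rcases shape hm s i with ⟨a, hi, ei⟩ | ⟨a, hi, ei⟩ | ⟨a, hi, ei⟩ | ⟨hi, ei⟩
    · have := hb (0, a)
      omega
    · have := hb (1, a)
      omega
    · have := hb (2, a)
      omega
    · have := i.isLt
      omega

lemma not_has3Sum (hm : 3 * m ≤ n) {s : Fin 3 × Fin m → ℕ} (hs : No s) :
    ¬ Has3Sum (inp n m s) := by
  rintro ⟨i, j, k, _, _, _, h⟩
  rcases shape hm s i with ⟨a, hi, ei⟩ | ⟨a, hi, ei⟩ | ⟨a, hi, ei⟩ | ⟨hi, ei⟩ <;>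
  rcases shape hm s j with ⟨a', hj, ej⟩ | ⟨a', hj, ej⟩ | ⟨a', hj, ej⟩ | ⟨hj, ej⟩ <;>
  rcases shape hm s k with ⟨a'', hk, ek⟩ | ⟨a'', hk, ek⟩ | ⟨a'', hk, ek⟩ | ⟨hk, ek⟩ <;>
  rw [ei, ej, ek] at h <;>
  first
  | omega
  | exact hs.2 a a' a'' (by omega)
  | exact hs.2 a' a a'' (by omega)

lemma has3Sum_plant (hm : 3 * m ≤ n) (s : Fin 3 × Fin m → ℕ) (l : Lab m) :
    Has3Sum (inp n m (plant s l)) := by
  refine ⟨emb hm (0, l 0), emb hm (1, l 1), emb hm (2, l 2), ?_, ?_, ?_, ?_⟩
  · intro h
    have := emb_injective hm h
    simp at this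
  · intro h
    have := emb_injective hm h
    simp at this
  · intro h
    have := emb_injective hm h
    simp at this
  · rw [inp_emb, inp_emb, inp_emb]
    have e0 : plant s l (0, l 0) = s (0, l 0) := by simp [plant]
    have e1 : plant s l (1, l 1) = s (1, l 1) := by simp [plant]
    have e2 : plant s l (2, l 2) = s (0, l 0) + s (1, l 1) := by simp [plant]
    rw [e0, e1, e2]
    simp [rho]
    ring

/-- few free numbers have a coincidence -/
lemma card_coll (q : ℕ) (r : Fin 3) (a a' : Fin m) (h : a ≠ a') :
    q * ((box (rg m q)).filter fun s => s (r, a) = s (r, a')).card ≤ (box (rg m q)).card := by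
  refine le_trans (Nat.mul_le_mul_right _ (rg_ge q (r, a))) ?_
  refine (fiber_le (R := rg m q) (r, a) 1 _ (filter_subset _ _) ?_).trans (by simp)
  intro s _
  rw [card_le_one]
  intro z hz z' hz'
  simp only [mem_filter] at hz hz'
  have hne : ((r, a') : Fin 3 × Fin m) ≠ (r, a) := by
    intro h'
    simp only [Prod.mk.injEq, true_and] at h'
    exact h h'.symm
  have e1 := hz.2.2
  have e2 := hz'.2.2
  rw [Function.update_self, Function.update_of_ne hne] at e1 e2
  omega

lemma card_sol (q : ℕ) (i j k : Fin m) :
    2 * q * ((box (rg m q)).filter fun s => s (0, i) + s (1, j) = s (2, k)).card ≤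
      (box (rg m q)).card := by
  have e : rg m q (2, k) = 2 * q := by simp [rg]
  rw [← e]
  refine (fiber_le (R := rg m q) (2, k) 1 _ (filter_subset _ _) ?_).trans (by simp)
  intro s _
  rw [card_le_one]
  intro z hz z' hz'
  simp only [mem_filter] at hz hz'
  have e1 := hz.2.2
  have e2 := hz'.2.2
  rw [Function.update_self, Function.update_of_ne (by simp), Function.update_of_ne (by simp)]
    at e1 e2
  omega

open Classical in
/-- most choices of the free numbers give an instance with answer no -/
lemma card_no (q : ℕ) :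
    2 * q * (box (rg m q)).card ≤ 2 * q * ((box (rg m q)).filter fun s => No s).card +
      (6 * m ^ 2 + m ^ 3) * (box (rg m q)).card := by
  set S1 : Finset (Fin 3 × Fin m × Fin m) := univ.filter fun x => x.2.1 ≠ x.2.2 with hS1
  have h1 : (box (rg m q)).filter (fun s => ¬ No s) ⊆
      (S1.biUnion fun x => (box (rg m q)).filter fun s => s (x.1, x.2.1) = s (x.1, x.2.2)) ∪
      ((univ : Finset (Fin m × Fin m × Fin m)).biUnion fun x =>
        (box (rg m q)).filter fun s => s (0, x.1) + s (1, x.2.1) = s (2, x.2.2)) := by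
    intro s hs
    obtain ⟨hs1, hs2⟩ := mem_filter.1 hs
    rw [mem_union, mem_biUnion, mem_biUnion]
    unfold No at hs2
    rw [not_and_or] at hs2
    rcases hs2 with h | h
    · left
      push Not at h
      obtain ⟨r, a, a', h2, h3⟩ := h
      exact ⟨(r, a, a'), mem_filter.2 ⟨mem_univ _, h3⟩, mem_filter.2 ⟨hs1, h2⟩⟩
    · right
      push Not at h
      obtain ⟨i, j, k, h2⟩ := h
      exact ⟨(i, j, k), mem_univ _, mem_filter.2 ⟨hs1, h2⟩⟩
  have h2 : 2 * q * ((box (rg m q)).filter (fun s => ¬ No s)).card ≤
      (6 * m ^ 2 + m ^ 3) * (box (rg m q)).card := by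
    refine (Nat.mul_le_mul_left _ ((card_le_card h1).trans (card_union_le _ _))).trans ?_
    rw [mul_add, add_mul]
    apply add_le_add
    · refine (Nat.mul_le_mul_left _ card_biUnion_le).trans ?_
      rw [mul_sum]
      have h3 : S1.card ≤ 3 * m ^ 2 := by
        refine (card_le_univ S1).trans ?_
        simp [sq]
      calc _ ≤ ∑ x ∈ S1, 2 * (box (rg m q)).card := by
            refine sum_le_sum fun x hx => ?_
            rw [mul_assoc]
            exact Nat.mul_le_mul_left 2 (card_coll q x.1 x.2.1 x.2.2 (mem_filter.1 hx).2)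
        _ = S1.card * (2 * (box (rg m q)).card) := by rw [sum_const, smul_eq_mul]
        _ ≤ 3 * m ^ 2 * (2 * (box (rg m q)).card) := Nat.mul_le_mul_right _ h3
        _ = _ := by ring
    · refine (Nat.mul_le_mul_left _ card_biUnion_le).trans ?_
      rw [mul_sum]
      calc _ ≤ ∑ x : Fin m × Fin m × Fin m, (box (rg m q)).card :=
            sum_le_sum fun x _ => card_sol q x.1 x.2.1 x.2.2
        _ = m ^ 3 * (box (rg m q)).card := by
          rw [sum_const, smul_eq_mul]
          congr 1
          simp
          ring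
  have h3 := card_filter_add_card_filter_not (s := box (rg m q)) (fun s => No s)
  calc 2 * q * (box (rg m q)).card = 2 * q * ((box (rg m q)).filter fun s => No s).card +
        2 * q * ((box (rg m q)).filter (fun s => ¬ No s)).card := by rw [← mul_add, h3]
    _ ≤ _ := Nat.add_le_add_left h2 _


end hard

/-! ### The transcripts -/

section run

variable {ι : Type} {K : ι → Type} [∀ i, Field (K i)] {n : ℕ}

lemma subset_run (p : Prog K n) (x : Fin n → ℤ) (h : List (Form K n)) : h ⊆ (p.run h x).1 := by
  induction p generalizing h with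
  | out b => exact fun _ hu => hu
  | step u next ih =>
    intro v hv
    exact ih _ _ (by simp [hv])

lemma run_sep (p : Prog K n) (x y : Fin n → ℤ) (h : List (Form K n)) :
    p.run h x = p.run h y ∨ ∃ u ∈ (p.run h x).1, ∃ v ∈ (p.run h x).1, u ∈ (p.run h y).1 ∧
      v ∈ (p.run h y).1 ∧ ¬ (u.val x = v.val x ↔ u.val y = v.val y) := by
  induction p generalizing h with
  | out b => exact Or.inl rfl
  | step u next ih =>
    by_cases he : lookup h u x = lookup h u y
    · simp only [Prog.run]
      rw [← he]
      exact ih _ _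
    · right
      obtain ⟨s, hs⟩ := Function.ne_iff.1 he
      have h1 : ¬ ((∃ v, h[s]? = some v ∧ v.val x = u.val x) ↔
          (∃ v, h[s]? = some v ∧ v.val y = u.val y)) := by
        intro h2
        apply hs
        unfold lookup
        exact decide_eq_decide.2 h2
      have h3 : ∃ v, h[s]? = some v := by
        by_contra h4
        push Not at h4
        exact h1 ⟨fun ⟨v, hv, _⟩ => absurd hv (h4 v), fun ⟨v, hv, _⟩ => absurd hv (h4 v)⟩
      obtain ⟨v, hv⟩ := h3
      have hvh : v ∈ h := List.mem_of_getElem? hv
      have hu1 : ∀ z, u ∈ ((Prog.step u next).run h z).1 := fun z =>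
        subset_run (next (lookup h u z)) z (h ++ [u]) (by simp)
      have hv1 : ∀ z, v ∈ ((Prog.step u next).run h z).1 := fun z =>
        subset_run (next (lookup h u z)) z (h ++ [u]) (by simp [hvh])
      refine ⟨v, hv1 x, u, hu1 x, hv1 y, hu1 y, ?_⟩
      intro h5
      apply h1
      constructor
      · rintro ⟨w, hw, hwe⟩
        rw [hv, Option.some.injEq] at hw
        subst hw
        exact ⟨v, hv, h5.1 hwe⟩
      · rintro ⟨w, hw, hwe⟩
        rw [hv, Option.some.injEq] at hw
        subst hw
        exact ⟨v, hv, h5.2 hwe⟩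

lemma run_uses {κ Δ : ℕ} (p : Prog K n) (hp : p.Uses κ Δ) (x : Fin n → ℤ) (h : List (Form K n))
    (hh : ∀ u ∈ h, u.Ok κ Δ) : ∀ u ∈ (p.run h x).1, u.Ok κ Δ := by
  induction p generalizing h with
  | out b => exact hh
  | step u next ih =>
    refine ih _ (hp.2 _) _ fun v hv => ?_
    rcases List.mem_append.1 hv with h1 | h1
    · exact hh v h1
    · rw [List.mem_singleton] at h1
      rw [h1]
      exact hp.1

lemma val_congr {u : Form K n} {x y : Fin n → ℤ} (h : ∀ i ∈ u.num.vars ∪ u.den.vars, x i = y i) :
    u.val x = u.val y := by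
  have e : ∀ P : MvPolynomial (Fin n) (K u.idx), (∀ i ∈ P.vars, x i = y i) →
      MvPolynomial.eval (fun j => (x j : K u.idx)) P =
      MvPolynomial.eval (fun j => (y j : K u.idx)) P := by
    intro P hP
    apply MvPolynomial.hom_congr_vars
    · ext r
      simp
    · intro i hi _
      simp [hP i hi]
    · rfl
  unfold Form.val
  rw [e u.num fun i hi => h i (mem_union_left _ hi), e u.den fun i hi => h i (mem_union_right _ hi)]

lemma dich_of_false {E : ℕ → Prop} {R Δ : ℕ} (h : ∀ z, ¬ E z) : Dich E R Δ := by
  classical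
  left
  have : ((range R).filter fun z => E z) = ∅ := filter_eq_empty_iff.2 fun z _ => h z
  rw [this]
  simp

/-- two rational functions on a line -/
lemma dich_line {R Δ : ℕ} (hK : ∀ i, BigField R (K i)) {κ : ℕ} {u v : Form K n} (hu : u.Ok κ Δ)
    (hv : v.Ok κ Δ) (x y : Fin n → ℤ) :
    Dich (fun z : ℕ => u.val (fun i => x i + y i * z) = v.val (fun i => x i + y i * z)) R
      (4 * Δ) := by
  classical
  obtain ⟨i, nu, du⟩ := u
  obtain ⟨j, nv, dv⟩ := v
  by_cases hij : i = j
  · subst hij
    have h1 := dich_poly (hK i) (onLine x y nu) (onLine x y du) (onLine x y nv) (onLine x y dv)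
      (onLine_degree x y nu hu.1) (onLine_degree x y du hu.2.1) (onLine_degree x y nv hv.1)
      (onLine_degree x y dv hv.2.1)
    have h2 : (fun z : ℕ => (⟨i, nu, du⟩ : Form K n).val (fun i => x i + y i * z) =
        (⟨i, nv, dv⟩ : Form K n).val (fun i => x i + y i * z)) = fun z : ℕ =>
        (onLine x y nu).eval (z : K i) / (onLine x y du).eval (z : K i) =
        (onLine x y nv).eval (z : K i) / (onLine x y dv).eval (z : K i) := by
      funext z
      unfold Form.val
      rw [onLine_eval, onLine_eval, onLine_eval, onLine_eval]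
      simp only [Sigma.mk.injEq, heq_eq_eq, true_and]
    rw [h2]
    exact h1
  · apply dich_of_false
    intro z h
    exact hij (congrArg Sigma.fst h)

end run

/-! ### The algorithm on the free numbers -/

section alg

variable {ι : Type} {K : ι → Type} [∀ i, Field (K i)] {n m : ℕ}

lemma inp_line (hm : 3 * m ≤ n) (s : Pt m) (b : Fin 3 × Fin m) (z : ℕ) :
    inp n m (Function.update s b z) = fun i => inp n m (Function.update s b 0) i +
      (if i = emb hm b then 16 else 0) * z := by
  funext i
  by_cases h : i.val < 3 * m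
  · obtain ⟨b', hb'⟩ := exists_emb hm h
    rw [hb', inp_emb, inp_emb]
    by_cases hb : b' = b
    · rw [hb]
      simp
      ring
    · rw [Function.update_of_ne hb, Function.update_of_ne hb,
        if_neg fun h => hb (emb_injective hm h)]
      simp
  · have : i ≠ emb hm b := by
      intro h'
      apply h
      rw [h']
      exact (finProdFinEquiv b).isLt
    rw [inp_filler _ h, inp_filler _ h, if_neg this]
    simp

lemma inp_diag (hm : 3 * m ≤ n) (s : Pt m) (l : Lab m) {r : Fin 3} (hr : r ≠ 2) (z : ℕ) :
    inp n m (plant (Function.update s (r, l r) z) l) = fun i =>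
      inp n m (plant (Function.update s (r, l r) 0) l) i +
      (if i = emb hm (r, l r) ∨ i = emb hm (2, l 2) then 16 else 0) * z := by
  have hne : (r, l r) ≠ ((2 : Fin 3), l 2) := by
    intro h
    simp only [Prod.mk.injEq] at h
    exact hr h.1
  funext i
  by_cases h : i.val < 3 * m
  · obtain ⟨b', hb'⟩ := exists_emb hm h
    rw [hb', inp_emb, inp_emb]
    by_cases hb : b' = (r, l r)
    · rw [hb]
      unfold plant
      rw [Function.update_of_ne hne, Function.update_of_ne hne]
      simp
      ring
    · by_cases hb2 : b' = (2, l 2)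
      · rw [hb2]
        unfold plant
        rw [Function.update_self, Function.update_self, if_pos (Or.inr rfl)]
        have hr01 : r = 0 ∨ r = 1 := by
          fin_cases r
          · left; rfl
          · right; rfl
          · exact absurd rfl hr
        rcases hr01 with rfl | rfl
        · rw [Function.update_self, Function.update_self,
            Function.update_of_ne (by simp), Function.update_of_ne (by simp)]
          push_cast
          ring
        · rw [Function.update_self, Function.update_self,
            Function.update_of_ne (by simp), Function.update_of_ne (by simp)]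
          push_cast
          ring
      · unfold plant
        rw [Function.update_of_ne hb2, Function.update_of_ne hb2, Function.update_of_ne hb,
          Function.update_of_ne hb, if_neg]
        · simp
        · rintro (h' | h')
          · exact hb (emb_injective hm h')
          · exact hb2 (emb_injective hm h')
  · have : ¬ (i = emb hm (r, l r) ∨ i = emb hm (2, l 2)) := by
      rintro (h' | h')
      · apply h
        rw [h']
        exact (finProdFinEquiv (r, l r)).isLt
      · apply h
        rw [h']
        exact (finProdFinEquiv ((2 : Fin 3), l 2)).isLt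
    rw [inp_filler _ h, inp_filler _ h, if_neg this]
    simp

/-- the program as an algorithm on the free numbers -/
noncomputable def alg (hm : 3 * m ≤ n) {q κ Δ : ℕ} (hK : ∀ i, BigField (2 * q) (K i))
    (p : Prog K n) (hp : p.Uses κ Δ) : PAlg m (Form K n) (Σ i, K i) q (4 * Δ) κ := by
  classical
  exact
  { val := fun u s => u.val (inp n m s)
    X := fun u => univ.filter fun b => emb hm b ∈ u.num.vars ∪ u.den.vars
    C := Form.Ok κ Δ
    F := fun s => (p.run [] (inp n m s)).1.toFinset
    ans := fun s => p.answer (inp n m s)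
    hC := by
      intro s u hu
      exact run_uses p hp (inp n m s) [] (by simp) u (List.mem_toFinset.1 hu)
    dep := by
      intro u s t h
      apply val_congr
      intro i hi
      by_cases hi3 : i.val < 3 * m
      · obtain ⟨b, hb⟩ := exists_emb hm hi3
        rw [hb, inp_emb, inp_emb, h b]
        rw [mem_filter]
        exact ⟨mem_univ _, hb ▸ hi⟩
      · rw [inp_filler _ hi3, inp_filler _ hi3]
    few := by
      intro u hu
      refine le_trans ?_ hu.2.2
      apply card_le_card_of_injOn (emb hm)
      · intro b hb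
        exact (mem_filter.1 hb).2
      · exact (emb_injective hm).injOn
    sep := by
      intro s t
      rcases run_sep p (inp n m s) (inp n m t) [] with h | ⟨u, hu, v, hv, hu', hv', hne⟩
      · left
        rw [h]
        refine ⟨rfl, ?_⟩
        unfold Prog.answer
        rw [h]
      · right
        exact ⟨u, by simpa using hu, v, by simpa using hv, by simpa using hu',
          by simpa using hv', hne⟩
    line := by
      intro u v hu hv s b
      have hR : ∀ i, BigField (rg m q b) (K i) := by
        intro i k h1 h2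
        apply hK i k h1
        unfold rg at h2
        split_ifs at h2 <;> omega
      have h1 := dich_line hR hu hv (inp n m (Function.update s b 0))
        (fun i => if i = emb hm b then 16 else 0)
      have h2 : (fun z : ℕ => u.val (inp n m (Function.update s b z)) =
          v.val (inp n m (Function.update s b z))) = fun z : ℕ =>
          u.val (fun i => inp n m (Function.update s b 0) i +
            (if i = emb hm b then 16 else 0) * z) =
          v.val (fun i => inp n m (Function.update s b 0) i +
            (if i = emb hm b then 16 else 0) * z) := by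
        funext z
        rw [inp_line hm s b z]
      rw [h2]
      exact h1
    diag := by
      intro u v hu hv s l r hr
      have hR : ∀ i, BigField q (K i) := by
        intro i k h1 h2
        exact hK i k h1 (by omega)
      have h1 := dich_line hR hu hv (inp n m (plant (Function.update s (r, l r) 0) l))
        (fun i => if i = emb hm (r, l r) ∨ i = emb hm (2, l 2) then 16 else 0)
      have h2 : (fun z : ℕ => u.val (inp n m (plant (Function.update s (r, l r) z) l)) =
          v.val (inp n m (plant (Function.update s (r, l r) z) l))) = fun z : ℕ =>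
          u.val (fun i => inp n m (plant (Function.update s (r, l r) 0) l) i +
            (if i = emb hm (r, l r) ∨ i = emb hm (2, l 2) then 16 else 0) * z) =
          v.val (fun i => inp n m (plant (Function.update s (r, l r) 0) l) i +
            (if i = emb hm (r, l r) ∨ i = emb hm (2, l 2) then 16 else 0) * z) := by
        funext z
        rw [inp_diag hm s l hr z]
      rw [h2]
      exact h1 }

lemma alg_ans (hm : 3 * m ≤ n) {q κ Δ : ℕ} (hK : ∀ i, BigField (2 * q) (K i))
    (p : Prog K n) (hp : p.Uses κ Δ) (s : Pt m) :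
    (alg hm hK p hp).ans s = p.answer (inp n m s) := rfl

lemma alg_card (hm : 3 * m ≤ n) {q κ Δ : ℕ} (hK : ∀ i, BigField (2 * q) (K i))
    (p : Prog K n) (hp : p.Uses κ Δ) (s : Pt m) :
    ((alg hm hK p hp).F s).card ≤ p.cost (inp n m s) := by
  classical
  exact List.toFinset_card_le _

end alg

end Pool.Agent.J4.H34.PH
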